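import Pool.Agent.Lib_helper33.PIN.P.C7

/-! # A full tuple of removable handles over a free group with two free quotients -/

set_option autoImplicit false

namespace Pool.Agent.UNI

open scoped commutatorElement
open Pool.Agent.FQ Pool.Agent.PIN

section

variable {α β γ : Type} (p0 : FreeGroup α →* FreeGroup β) (p1 : FreeGroup α →* FreeGroup γ)
  (y : γ → FreeGroup α) (z : β → FreeGroup α)

/-- The part of a letter which lies in both kernels. -/
def th_x (a : α) : FreeGroup α :=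
  (FreeGroup.lift y (p1 (FreeGroup.of a)) * FreeGroup.lift z (p0 (FreeGroup.of a)))⁻¹ *
    FreeGroup.of a

/-- The tuple. -/
def thE (lγ : List γ) (lβ : List β) (lα : List α) : List (Hd (FreeGroup α)) :=
  (lγ.map (fun j => ((0 : Fin 3), (1 : FreeGroup α), y j)) ++
    lβ.map (fun j => ((1 : Fin 3), (1 : FreeGroup α), z j))) ++
    lα.map (fun a => ((2 : Fin 3), th_x p0 p1 y z a, (1 : FreeGroup α)))

theorem th_lift_mem {δ : Type} (u : δ → FreeGroup α) (N : Subgroup (FreeGroup α))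
    (h : ∀ j, u j ∈ N) (x : FreeGroup δ) : FreeGroup.lift u x ∈ N := by
  induction x using FreeGroup.induction_on with
  | C1 => rw [map_one]; exact one_mem _
  | of i => rw [FreeGroup.lift_apply_of]; exact h i
  | inv_of i hi => rw [map_inv]; exact inv_mem hi
  | mul a b ha hb => rw [map_mul]; exact mul_mem ha hb

/-- a homomorphism which agrees with the quotient map -/
theorem th_quot {δ : Type} (p : FreeGroup α →* FreeGroup δ) (u : δ → FreeGroup α)
    (N : Subgroup (FreeGroup α)) [N.Normal]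
    (h : ∀ a, (FreeGroup.lift u (p (FreeGroup.of a)))⁻¹ * FreeGroup.of a ∈ N) : p.ker ≤ N := by
  have h1 : (QuotientGroup.mk' N).comp ((FreeGroup.lift u).comp p) = QuotientGroup.mk' N :=
    FreeGroup.ext_hom _ _ fun a => by
      show QuotientGroup.mk' N (FreeGroup.lift u (p (FreeGroup.of a))) =
        QuotientGroup.mk' N (FreeGroup.of a)
      rw [QuotientGroup.mk'_apply, QuotientGroup.mk'_apply, QuotientGroup.eq]
      exact h a
  intro x hx
  have h2 := DFunLike.congr_fun h1 x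
  have h3 : p x = 1 := hx
  have h4 : QuotientGroup.mk' N (FreeGroup.lift u (p x)) = QuotientGroup.mk' N x := h2
  rw [h3, map_one, map_one] at h4
  exact (QuotientGroup.eq_one_iff x).1 h4.symm

theorem th_ker0 (N : Subgroup (FreeGroup α)) [hN : N.Normal] (hy : ∀ j, y j ∈ N)
    (hx : ∀ a, th_x p0 p1 y z a ∈ N) : p0.ker ≤ N := by
  refine th_quot p0 z N fun a => ?_
  have hA := th_lift_mem y N hy (p1 (FreeGroup.of a))
  have h1 := hx a
  unfold th_x at h1
  generalize FreeGroup.lift y (p1 (FreeGroup.of a)) = A at hA h1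
  generalize FreeGroup.lift z (p0 (FreeGroup.of a)) = B at h1
  generalize FreeGroup.of a = g at h1
  have h2 : B⁻¹ * g = (A * B)⁻¹ * g * (g⁻¹ * A * g⁻¹⁻¹) := by group
  rw [h2]
  exact mul_mem h1 (hN.conj_mem _ hA g⁻¹)

theorem th_ker1 (N : Subgroup (FreeGroup α)) [hN : N.Normal] (hz : ∀ j, z j ∈ N)
    (hx : ∀ a, th_x p0 p1 y z a ∈ N) : p1.ker ≤ N := by
  refine th_quot p1 y N fun a => ?_
  have hB := th_lift_mem z N hz (p0 (FreeGroup.of a))
  have h1 := hx a
  unfold th_x at h1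
  generalize FreeGroup.lift y (p1 (FreeGroup.of a)) = A at h1
  generalize FreeGroup.lift z (p0 (FreeGroup.of a)) = B at hB h1
  generalize FreeGroup.of a = g at h1
  have h2 : A⁻¹ * g = B * ((A * B)⁻¹ * g) := by group
  rw [h2]
  exact mul_mem hB h1

variable (hy0 : ∀ j, p0 (y j) = 1) (hy1 : ∀ j, p1 (y j) = FreeGroup.of j)
  (hz1 : ∀ j, p1 (z j) = 1) (hz0 : ∀ j, p0 (z j) = FreeGroup.of j)

include hy0 hz1 in
theorem th_ker01 (N : Subgroup (FreeGroup α)) [hN : N.Normal]
    (hc : ⁅p0.ker, p1.ker⁆ ≤ N) (hx : ∀ a, th_x p0 p1 y z a ∈ N) :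
    p0.ker ⊓ p1.ker ≤ N := by
  set π := QuotientGroup.mk' N with hπ
  have hk : ∀ x ∈ N, π x = 1 := fun x hx => (QuotientGroup.eq_one_iff x).2 hx
  have hcomm : ∀ (u : FreeGroup γ) (v : FreeGroup β),
      π (FreeGroup.lift y u) * π (FreeGroup.lift z v) =
        π (FreeGroup.lift z v) * π (FreeGroup.lift y u) := by
    intro u v
    have h1 : FreeGroup.lift y u ∈ p0.ker := b2_lift1 y p0 hy0 u
    have h2 : FreeGroup.lift z v ∈ p1.ker := b2_lift1 z p1 hz1 v
    have h3 := hk _ (hc (Subgroup.commutator_mem_commutator h1 h2))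
    rw [map_commutatorElement, commutatorElement_eq_one_iff_mul_comm] at h3
    exact h3
  let θ : FreeGroup α →* FreeGroup α ⧸ N :=
    { toFun := fun x => π (FreeGroup.lift y (p1 x)) * π (FreeGroup.lift z (p0 x))
      map_one' := by simp
      map_mul' := fun a b => by
        simp only [map_mul]
        rw [mul_assoc, ← mul_assoc (π (FreeGroup.lift y (p1 b))), hcomm (p1 b) (p0 a)]
        simp only [mul_assoc] }
  have hθ : θ = π := FreeGroup.ext_hom _ _ fun a => by
    show π (FreeGroup.lift y (p1 (FreeGroup.of a))) * π (FreeGroup.lift z (p0 (FreeGroup.of a))) =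
      π (FreeGroup.of a)
    have h1 := hk _ (hx a)
    unfold th_x at h1
    rw [map_mul, map_inv, map_mul, inv_mul_eq_one] at h1
    exact h1
  rintro x ⟨h0, h1⟩
  have h2 := DFunLike.congr_fun hθ x
  have h3 : π (FreeGroup.lift y (p1 x)) * π (FreeGroup.lift z (p0 x)) = π x := h2
  have e0 : p0 x = 1 := h0
  have e1 : p1 x = 1 := h1
  rw [e0, e1, map_one, map_one, map_one, one_mul] at h3
  exact (QuotientGroup.eq_one_iff x).1 h3.symm

include hy0 hz0 in
theorem th_x0 (a : α) : p0 (th_x p0 p1 y z a) = 1 := by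
  unfold th_x
  rw [map_mul, map_inv, map_mul, b2_lift1 y p0 hy0, b2_lift2 z p0 hz0, one_mul, inv_mul_cancel]

include hy1 hz1 in
theorem th_x1 (a : α) : p1 (th_x p0 p1 y z a) = 1 := by
  unfold th_x
  rw [map_mul, map_inv, map_mul, b2_lift1 z p1 hz1, b2_lift2 y p1 hy1, mul_one, inv_mul_cancel]

variable (lγ : List γ) (lβ : List β) (lα : List α)

theorem thE_rm : ∀ h ∈ thE p0 p1 y z lγ lβ lα, Rm h := by
  intro h hh
  unfold thE at hh
  rcases List.mem_append.1 hh with h1 | h1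
  · rcases List.mem_append.1 h1 with h2 | h2
    · obtain ⟨j, -, rfl⟩ := List.mem_map.1 h2
      exact Or.inl rfl
    · obtain ⟨j, -, rfl⟩ := List.mem_map.1 h2
      exact Or.inl rfl
  · obtain ⟨j, -, rfl⟩ := List.mem_map.1 h1
    exact Or.inr rfl

theorem thE_w : w (thE p0 p1 y z lγ lβ lα) = 1 := b4_w_rm (thE_rm p0 p1 y z lγ lβ lα)

theorem thE_fst : (thE p0 p1 y z lγ lβ lα).map Prod.fst =
    (List.replicate lγ.length 0 ++ List.replicate lβ.length 1) ++ List.replicate lα.length 2 := by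
  have key : ∀ {δ : Type} (l : List δ) (e : Fin 3) (f : δ → FreeGroup α × FreeGroup α),
      (l.map fun j => ((e, f j) : Hd (FreeGroup α))).map Prod.fst =
        List.replicate l.length e := by
    intro δ l e f
    rw [List.map_map]
    exact List.map_const
  unfold thE
  rw [List.map_append, List.map_append]
  exact congrArg₂ _ (congrArg₂ _ (key lγ 0 _) (key lβ 1 _)) (key lα 2 _)

theorem thE_nn : nn 2 (thE p0 p1 y z lγ lβ lα) = ⊥ := by
  rw [eq_bot_iff, nn_le_iff]
  intro h hh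
  unfold thE at hh
  rcases List.mem_append.1 hh with h1 | h1
  · rcases List.mem_append.1 h1 with h2 | h2
    · obtain ⟨j, -, rfl⟩ := List.mem_map.1 h2
      exact ⟨fun h3 => absurd h3 (by decide : (0 : Fin 3) ≠ 2), fun _ => one_mem _⟩
    · obtain ⟨j, -, rfl⟩ := List.mem_map.1 h2
      exact ⟨fun h3 => absurd h3 (by decide : (1 : Fin 3) ≠ 2), fun _ => one_mem _⟩
  · obtain ⟨j, -, rfl⟩ := List.mem_map.1 h1
    exact ⟨fun _ => one_mem _, fun h3 => absurd rfl h3⟩

include hy0 hy1 hz0 hz1 in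
theorem thE_full (hlγ : ∀ j, j ∈ lγ) (hlβ : ∀ j, j ∈ lβ) (hlα : ∀ j, j ∈ lα)
    (A : Qd (FreeGroup α)) (hA0 : A.N0 = p0.ker) (hA1 : A.N1 = p1.ker)
    (hM : A.M = p0.ker ⊓ p1.ker) : Full A (thE p0 p1 y z lγ lβ lα) := by
  have m0 : ∀ j, ((0 : Fin 3), (1 : FreeGroup α), y j) ∈ thE p0 p1 y z lγ lβ lα := fun j =>
    List.mem_append_left _ (List.mem_append_left _ (List.mem_map.2 ⟨j, hlγ j, rfl⟩))
  have m1 : ∀ j, ((1 : Fin 3), (1 : FreeGroup α), z j) ∈ thE p0 p1 y z lγ lβ lα := fun j =>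
    List.mem_append_left _ (List.mem_append_right _ (List.mem_map.2 ⟨j, hlβ j, rfl⟩))
  have m2' : ∀ a, ((2 : Fin 3), th_x p0 p1 y z a, (1 : FreeGroup α)) ∈
      thE p0 p1 y z lγ lβ lα := fun j =>
    List.mem_append_right _ (List.mem_map.2 ⟨j, hlα j, rfl⟩)
  have hty : TyL A (thE p0 p1 y z lγ lβ lα) := by
    intro h hh
    unfold thE at hh
    rcases List.mem_append.1 hh with h1 | h1
    · rcases List.mem_append.1 h1 with h2 | h2
      · obtain ⟨j, -, rfl⟩ := List.mem_map.1 h2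
        refine ⟨one_mem _, ?_⟩
        show y j ∈ A.N0
        rw [hA0]
        exact hy0 j
      · obtain ⟨j, -, rfl⟩ := List.mem_map.1 h2
        refine ⟨one_mem _, ?_⟩
        show z j ∈ A.N1
        rw [hA1]
        exact hz1 j
    · obtain ⟨j, -, rfl⟩ := List.mem_map.1 h1
      refine ⟨?_, trivial⟩
      show th_x p0 p1 y z j ∈ A.M
      rw [hM]
      exact ⟨th_x0 p0 p1 y z hy0 hz0 j, th_x1 p0 p1 y z hy1 hz1 j⟩
  have g0 : n0 (thE p0 p1 y z lγ lβ lα) = A.N0 := by
    refine le_antisymm (f3_n0_le hty) ?_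
    rw [hA0]
    exact th_ker0 p0 p1 y z _
      (fun j => Subgroup.subset_normalClosure ⟨_, m0 j, Or.inl ⟨rfl, rfl⟩⟩)
      (fun a => Subgroup.subset_normalClosure
        ⟨_, m2' a, Or.inr ⟨(by decide : (2 : Fin 3) ≠ 0), rfl⟩⟩)
  have g1 : n1 (thE p0 p1 y z lγ lβ lα) = A.N1 := by
    refine le_antisymm (f3_n1_le hty) ?_
    rw [hA1]
    exact th_ker1 p0 p1 y z _
      (fun j => Subgroup.subset_normalClosure ⟨_, m1 j, Or.inl ⟨rfl, rfl⟩⟩)
      (fun a => Subgroup.subset_normalClosure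
        ⟨_, m2' a, Or.inr ⟨(by decide : (2 : Fin 3) ≠ 1), rfl⟩⟩)
  refine ⟨hty, ?_, g0, g1, ?_⟩
  · rw [eq_top_iff, ← FreeGroup.closure_range_of, Subgroup.closure_le]
    rintro _ ⟨a, rfl⟩
    have k1 : th_x p0 p1 y z a ∈ ent (thE p0 p1 y z lγ lβ lα) :=
      Subgroup.subset_closure ⟨_, m2' a, Or.inl rfl⟩
    have k2 := th_lift_mem y (ent (thE p0 p1 y z lγ lβ lα))
      (fun j => Subgroup.subset_closure ⟨_, m0 j, Or.inr rfl⟩) (p1 (FreeGroup.of a))
    have k3 := th_lift_mem z (ent (thE p0 p1 y z lγ lβ lα))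
      (fun j => Subgroup.subset_closure ⟨_, m1 j, Or.inr rfl⟩) (p0 (FreeGroup.of a))
    have k4 : FreeGroup.of a = FreeGroup.lift y (p1 (FreeGroup.of a)) *
        FreeGroup.lift z (p0 (FreeGroup.of a)) * th_x p0 p1 y z a := by
      unfold th_x
      rw [mul_inv_cancel_left]
    show FreeGroup.of a ∈ ent (thE p0 p1 y z lγ lβ lα)
    rw [k4]
    exact mul_mem (mul_mem k2 k3) k1
  · refine le_antisymm ?_ ?_
    · unfold mm
      rw [g0, g1]
      exact sup_le A.h01 (f3_m2_le hty)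
    · rw [hM]
      have : (mm (thE p0 p1 y z lγ lβ lα)).Normal := (qT _).m
      refine th_ker01 p0 p1 y z hy0 hz1 _ ?_ fun a => ?_
      · rw [← hA0, ← hA1, ← g0, ← g1]
        exact le_sup_left
      · exact (le_sup_right : m2 _ ≤ mm _)
          (Subgroup.subset_normalClosure ⟨_, m2' a, rfl, rfl⟩)

end

end Pool.Agent.UNI
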