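import Pool.Agent.Lib_helper33.PIN.P.C7

/-! # Lifting equivalences of typed tuples along a homomorphism -/

set_option autoImplicit false

namespace Pool.Agent.UNI

open scoped commutatorElement
open Pool.Agent.FQ Pool.Agent.PIN

variable {P Q : Type} [Group P] [Group Q]

theorem th_one {q : P →* Q} {S : List (Hd P)} {e : Fin 3} {x y : Q}
    (h : mp q S = [(e, x, y)]) : ∃ a b : P, S = [(e, a, b)] ∧ x = q a ∧ y = q b := by
  match S, h with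
  | [(e1, a, b)], h =>
    simp only [mp, List.map_cons, List.map_nil, List.cons.injEq, Prod.mk.injEq, and_true] at h
    obtain ⟨h1, h2, h3⟩ := h
    exact ⟨a, b, by rw [h1], h2.symm, h3.symm⟩
  | [], h => simp [mp] at h
  | _ :: _ :: _, h => simp [mp] at h

theorem th_fwd (q : P →* Q) {S T : List (Hd Q)} (h : Mv S T) {S' : List (Hd P)}
    (hS : mp q S' = S) : ∃ T' : List (Hd P), mp q T' = T ∧ Mv S' T' := by
  cases h with
  | r0 x y =>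
    obtain ⟨a, b, rfl, rfl, rfl⟩ := th_one hS
    refine ⟨_, ?_, Mv.r0 a b⟩
    simp only [mp, List.map_cons, List.map_nil, map_mul, map_inv]
  | r1 x y =>
    obtain ⟨a, b, rfl, rfl, rfl⟩ := th_one hS
    refine ⟨_, ?_, Mv.r1 a b⟩
    simp only [mp, List.map_cons, List.map_nil, map_mul, map_inv]
  | tw x y =>
    obtain ⟨a, b, rfl, rfl, rfl⟩ := th_one hS
    refine ⟨_, ?_, Mv.tw a b⟩
    simp only [mp, List.map_cons, List.map_nil, map_mul]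
  | ex e x y e' z v =>
    obtain ⟨a, b, c, d, rfl, rfl, rfl, rfl, rfl⟩ := c1_two hS
    refine ⟨_, ?_, Mv.ex e a b e' c d⟩
    simp only [mp, List.map_cons, List.map_nil, map_mul, map_inv, map_commutatorElement]
  | pt e x y e' z v =>
    obtain ⟨a, b, c, d, rfl, rfl, rfl, rfl, rfl⟩ := c1_two hS
    refine ⟨_, ?_, Mv.pt e a b e' c d⟩
    simp only [mp, List.map_cons, List.map_nil, map_mul, map_inv, map_commutatorElement]
  | om e x y e' z v ho =>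
    obtain ⟨a, b, c, d, rfl, rfl, rfl, rfl, rfl⟩ := c1_two hS
    refine ⟨_, ?_, Mv.om e a b e' c d ho⟩
    simp only [mp, sl, List.map_cons, List.map_nil, map_mul, map_inv]

/-! The inverse moves. -/

theorem th_inv_r0 (a b : P) : Mv [(0, a * b * a⁻¹, a⁻¹)] [(1, a, b)] := by
  have h := Mv.r0 (a * b * a⁻¹) a⁻¹
  have e1 : a⁻¹ * (a * b * a⁻¹) * a⁻¹⁻¹ = b := by group
  rwa [e1, inv_inv] at h

theorem th_inv_r1 (a b : P) : Mv [(1, a * b * a⁻¹, a⁻¹)] [(0, a, b)] := by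
  have h := Mv.r1 (a * b * a⁻¹) a⁻¹
  have e1 : a⁻¹ * (a * b * a⁻¹) * a⁻¹⁻¹ = b := by group
  rwa [e1, inv_inv] at h

theorem th_inv_tw (a b : P) : Mv [(2, a, b * a⁻¹)] [(2, a, b)] := by
  have h := Mv.tw a (b * a⁻¹)
  rwa [inv_mul_cancel_right] at h

theorem th_inv_ex (e : Fin 3) (a b : P) (e' : Fin 3) (c d : P) :
    Mv [(e, a, b), (e', ⁅a, b⁆⁻¹ * c * ⁅a, b⁆, ⁅a, b⁆⁻¹ * d * ⁅a, b⁆)]
      [(e', c, d), (e, a, b)] := by
  have h := Mv.ex e a b e' (⁅a, b⁆⁻¹ * c * ⁅a, b⁆) (⁅a, b⁆⁻¹ * d * ⁅a, b⁆)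
  have e1 : ∀ t : P, ⁅a, b⁆ * (⁅a, b⁆⁻¹ * t * ⁅a, b⁆) * ⁅a, b⁆⁻¹ = t := by
    intro t
    group
  rwa [e1, e1] at h

theorem th_inv_pt (e : Fin 3) (a b : P) (e' : Fin 3) (c d : P) :
    Mv [(e, d⁻¹ * a * d, d⁻¹ * b * d), (e', ⁅d⁻¹ * a * d, d⁻¹ * b * d⁆⁻¹ * c, d)]
      [(e', c, d), (e, a, b)] := by
  have h := Mv.pt e (d⁻¹ * a * d) (d⁻¹ * b * d) e' (⁅d⁻¹ * a * d, d⁻¹ * b * d⁆⁻¹ * c) d
  have e1 : ∀ t : P, d * (d⁻¹ * t * d) * d⁻¹ = t := by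
    intro t
    group
  rwa [e1, e1, mul_inv_cancel_left] at h

theorem th_inv_om (e : Fin 3) (a b : P) (e' : Fin 3) (c d : P) (ho : Ok e e') :
    Mv [(e, a * (c * d * c * d⁻¹ * c⁻¹)⁻¹, c * d * c * d⁻¹ * c⁻¹ * b * (c * d * c * d⁻¹ * c⁻¹)⁻¹),
        (e', c, c⁻¹ * (c * d * c * d⁻¹ * c⁻¹ * b * (c * d * c * d⁻¹ * c⁻¹)⁻¹) * c * d)]
      [(e, a, b), (e', c, d)] := by
  generalize hs : c * d * c * d⁻¹ * c⁻¹ = s
  have h := Mv.om e (a * s⁻¹) (s * b * s⁻¹) e' c (c⁻¹ * (s * b * s⁻¹) * c * d) ho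
  have e1 : sl (s * b * s⁻¹) c (c⁻¹ * (s * b * s⁻¹) * c * d) = s := by
    unfold sl
    rw [← hs]
    group
  have e2 : s⁻¹ * (s * b * s⁻¹) * s = b := by group
  have e3 : c⁻¹ * (s * b * s⁻¹)⁻¹ * c * (c⁻¹ * (s * b * s⁻¹) * c * d) = d := by group
  rw [e1, e2, e3, inv_mul_cancel_right] at h
  exact h

theorem th_bwd (q : P →* Q) {S T : List (Hd Q)} (h : Mv S T) {T' : List (Hd P)}
    (hT : mp q T' = T) : ∃ S' : List (Hd P), mp q S' = S ∧ Mv S' T' := by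
  cases h with
  | r0 x y =>
    obtain ⟨a, b, rfl, ha, hb⟩ := th_one hT
    refine ⟨_, ?_, th_inv_r0 a b⟩
    simp only [mp, List.map_cons, List.map_nil, map_mul, map_inv, ← ha, ← hb]
    have e1 : y⁻¹ * (y * x * y⁻¹) * y⁻¹⁻¹ = x := by group
    rw [e1, inv_inv]
  | r1 x y =>
    obtain ⟨a, b, rfl, ha, hb⟩ := th_one hT
    refine ⟨_, ?_, th_inv_r1 a b⟩
    simp only [mp, List.map_cons, List.map_nil, map_mul, map_inv, ← ha, ← hb]
    have e1 : y⁻¹ * (y * x * y⁻¹) * y⁻¹⁻¹ = x := by group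
    rw [e1, inv_inv]
  | tw x y =>
    obtain ⟨a, b, rfl, rfl, hb⟩ := th_one hT
    refine ⟨_, ?_, th_inv_tw a b⟩
    simp only [mp, List.map_cons, List.map_nil, map_mul, map_inv, ← hb]
    rw [mul_inv_cancel_right]
  | ex e x y e' z v =>
    obtain ⟨c, d, a, b, rfl, hc, hd, rfl, rfl⟩ := c1_two hT
    refine ⟨_, ?_, th_inv_ex e a b e' c d⟩
    simp only [mp, List.map_cons, List.map_nil, map_mul, map_inv, map_commutatorElement, ← hc, ← hd]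
    have e1 : ∀ t : Q, ⁅q a, q b⁆⁻¹ * (⁅q a, q b⁆ * t * ⁅q a, q b⁆⁻¹) * ⁅q a, q b⁆ = t := by
      intro t
      group
    rw [e1, e1]
  | pt e x y e' z v =>
    obtain ⟨c, d, a, b, rfl, hc, rfl, ha, hb⟩ := c1_two hT
    refine ⟨_, ?_, th_inv_pt e a b e' c d⟩
    simp only [mp, List.map_cons, List.map_nil, map_mul, map_inv, map_commutatorElement, ← hc,
      ← ha, ← hb]
    have e1 : ∀ t : Q, (q d)⁻¹ * (q d * t * (q d)⁻¹) * q d = t := by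
      intro t
      group
    rw [e1, e1, inv_mul_cancel_left]
  | om e x y e' z v ho =>
    obtain ⟨a, b, c, d, rfl, ha, hb, rfl, hd⟩ := c1_two hT
    refine ⟨_, ?_, th_inv_om e a b e' c d ho⟩
    simp only [mp, List.map_cons, List.map_nil, map_mul, map_inv, ← ha, ← hb, ← hd]
    have e1 : q c * ((q c)⁻¹ * y⁻¹ * q c * v) * q c * ((q c)⁻¹ * y⁻¹ * q c * v)⁻¹ * (q c)⁻¹ =
        sl y (q c) v := by
      unfold sl
      group
    rw [e1, mul_inv_cancel_right]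
    have e2 : sl y (q c) v * ((sl y (q c) v)⁻¹ * y * sl y (q c) v) * (sl y (q c) v)⁻¹ = y := by
      group
    have e3 : (q c)⁻¹ * y * q c * ((q c)⁻¹ * y⁻¹ * q c * v) = v := by group
    rw [e2, e3]

theorem th_lift (q : P →* Q) {S T : List (Hd Q)} (h : FQ.Orb S T) :
    (∀ S' : List (Hd P), mp q S' = S → ∃ T' : List (Hd P), mp q T' = T ∧ FQ.Orb S' T') ∧
    ∀ T' : List (Hd P), mp q T' = T → ∃ S' : List (Hd P), mp q S' = S ∧ FQ.Orb S' T' := by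
  induction h with
  | rel S T h =>
    obtain ⟨A, B, h⟩ := h
    constructor
    · intro S' hS'
      obtain ⟨l1, B', rfl, h1, rfl⟩ := List.map_eq_append_iff.1 hS'
      obtain ⟨A', S1, rfl, rfl, h2⟩ := List.map_eq_append_iff.1 h1
      obtain ⟨T1, h3, h4⟩ := th_fwd q h h2
      refine ⟨A' ++ T1 ++ B', ?_, Relation.EqvGen.rel _ _ (St.mk A' B' h4)⟩
      rw [c1_mp_app, c1_mp_app, h3]
      rfl
    · intro T' hT'
      obtain ⟨l1, B', rfl, h1, rfl⟩ := List.map_eq_append_iff.1 hT'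
      obtain ⟨A', T1, rfl, rfl, h2⟩ := List.map_eq_append_iff.1 h1
      obtain ⟨S1, h3, h4⟩ := th_bwd q h h2
      refine ⟨A' ++ S1 ++ B', ?_, Relation.EqvGen.rel _ _ (St.mk A' B' h4)⟩
      rw [c1_mp_app, c1_mp_app, h3]
      rfl
  | refl S => exact ⟨fun S' h => ⟨S', h, orb_refl _⟩, fun S' h => ⟨S', h, orb_refl _⟩⟩
  | symm S T _ ih =>
    obtain ⟨ih1, ih2⟩ := ih
    refine ⟨fun S' h => ?_, fun S' h => ?_⟩
    · obtain ⟨T', h1, h2⟩ := ih2 S' h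
      exact ⟨T', h1, orb_symm h2⟩
    · obtain ⟨T', h1, h2⟩ := ih1 S' h
      exact ⟨T', h1, orb_symm h2⟩
  | trans S T U _ _ ih1 ih2 =>
    obtain ⟨a1, a2⟩ := ih1
    obtain ⟨b1, b2⟩ := ih2
    refine ⟨fun S' h => ?_, fun S' h => ?_⟩
    · obtain ⟨T', h1, h2⟩ := a1 S' h
      obtain ⟨U', h3, h4⟩ := b1 T' h1
      exact ⟨U', h3, orb_trans h2 h4⟩
    · obtain ⟨T', h1, h2⟩ := b2 S' h
      obtain ⟨U', h3, h4⟩ := a2 T' h1
      exact ⟨U', h3, orb_trans h4 h2⟩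

/-- Equivalences lift along homomorphisms. -/
theorem orb_lift (q : P →* Q) {S : List (Hd P)} {T : List (Hd Q)} (h : FQ.Orb (mp q S) T) :
    ∃ T' : List (Hd P), mp q T' = T ∧ FQ.Orb S T' := (th_lift q h).1 S rfl

end Pool.Agent.UNI
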