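import Pool.Agent.Lib_helper56.UNI.Lift
import Pool.Agent.Lib_helper56.UNI.Free

/-! # The tuple of the third kernel of a trisection, with one of the types 0, 1 frozen -/

set_option autoImplicit false

namespace Pool.Agent.UNI

open scoped commutatorElement
open Pool.Agent.FQ Pool.Agent.PIN

variable {P Q : Type} [Group P] [Group Q]

/-- loading trivial handles of type 2 -/
theorem th_load (ks : List Q) : ∀ T : List (Hd Q), ent T = ⊤ →
    FQ.Orb (T ++ tt (List.replicate ks.length 2)) (T ++ ks.map fun k => (2, 1, k)) := by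
  induction ks with
  | nil => exact fun T _ => orb_refl _
  | cons k ks ih =>
    intro T hT
    have h1 := orb_k1 T (y := k) (by rw [hT]; trivial)
    have h2 := ih (T ++ [(2, 1, k)]) (g4_ent_top T _ hT)
    have h3 := orb_app (orb_symm h1) [] (tt (List.replicate ks.length 2))
    have e1 : (tt (List.replicate (k :: ks).length 2) : List (Hd Q)) =
        [(2, 1, 1)] ++ tt (List.replicate ks.length 2) := rfl
    rw [e1, ← List.append_assoc]
    rw [List.nil_append, List.nil_append] at h3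
    refine orb_trans h3 ?_
    rw [List.append_assoc] at h2 ⊢
    rw [List.append_assoc] at h2
    rw [List.map_cons]
    exact h2

/-- The quotients of `f 2`. -/
theorem th_ends {n : ℕ} (c : Fin n → Fin 3)
    (f : Fin 3 → FreeGroup (Fin n ⊕ Fin n) →* FreeGroup (Fin n)) (hf : TR.IsTrisection c f) :
    ∃ (p0 : FreeGroup (Fin n) →* FreeGroup {h // c h = 1})
      (p1 : FreeGroup (Fin n) →* FreeGroup {h // c h = 0}),
      Function.Surjective p0 ∧ Function.Surjective p1 ∧
      p0.ker = (f 0).ker.map (f 2) ∧ p1.ker = (f 1).ker.map (f 2) ∧ p0.ker ⊔ p1.ker = ⊤ ∧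
      ((f 0).ker ⊓ (f 1).ker).map (f 2) = p0.ker ⊓ p1.ker := by
  have hdist := tri_dist hf
  obtain ⟨hf1, hf2, hf3⟩ := hf
  rw [TR.iSup_fin3] at hf3
  set K0 := (f 0).ker with hK0
  set K1 := (f 1).ker with hK1
  set K2 := (f 2).ker with hK2
  have n0 : K0.Normal := inferInstance
  have n1 : K1.Normal := inferInstance
  have n2 : K2.Normal := inferInstance
  obtain ⟨r0, hr0, hr0k⟩ := hf2 0 2 1 (by decide) (by decide) (by decide)
  obtain ⟨r1, hr1, hr1k⟩ := hf2 1 2 0 (by decide) (by decide) (by decide)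
  obtain ⟨p0, hp0, hp0k⟩ := b3_desc (f 2) (hf1 2).1 r0 hr0 (A := K0) hr0k
  obtain ⟨p1, hp1, hp1k⟩ := b3_desc (f 2) (hf1 2).1 r1 hr1 (A := K1) hr1k
  have hinf : (K0 ⊓ K1).map (f 2) = K0.map (f 2) ⊓ K1.map (f 2) := by
    apply le_antisymm (Subgroup.map_inf_le _ _ _)
    rintro y ⟨⟨x0, hx0, hy0⟩, ⟨x1, hx1, hy1⟩⟩
    have h1 : x1⁻¹ * x0 ∈ K2 ⊓ (K0 ⊔ K1) := by
      refine ⟨?_, mul_mem (Subgroup.mem_sup_right (inv_mem hx1)) (Subgroup.mem_sup_left hx0)⟩
      show f 2 (x1⁻¹ * x0) = 1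
      rw [map_mul, map_inv, hy0, hy1, inv_mul_cancel]
    have h2 := hdist h1
    rw [sup_comm] at h2
    have n3 : (K2 ⊓ K0).Normal := inferInstance
    obtain ⟨u1, hu1, u0, hu0, hu⟩ := Subgroup.mem_sup_of_normal_right.1 h2
    refine ⟨x1 * u1, ⟨?_, mul_mem hx1 hu1.2⟩, ?_⟩
    · have h3 : x1 * u1 = x0 * u0⁻¹ := by
        rw [eq_mul_inv_iff_mul_eq, mul_assoc, hu]
        group
      rw [h3]
      exact K0.mul_mem hx0 (K0.inv_mem hu0.2)
    · rw [map_mul, MonoidHom.mem_ker.1 hu1.1, mul_one, hy1]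
  refine ⟨p0, p1, hp0, hp1, hp0k, hp1k, ?_, ?_⟩
  · rw [hp0k, hp1k, ← Subgroup.map_sup, ← b3_sup_map (A := K0 ⊔ K1) (f 2) le_rfl, hf3]
    exact Subgroup.map_top_of_surjective _ (hf1 2).1
  · rw [hp0k, hp1k]
    exact hinf

/-- Lifts of the letters. -/
theorem th_let {α β γ : Type} (p0 : FreeGroup α →* FreeGroup β) (p1 : FreeGroup α →* FreeGroup γ)
    (h1 : Function.Surjective p1) (ht : p0.ker ⊔ p1.ker = ⊤) (j : γ) :
    ∃ x : FreeGroup α, p0 x = 1 ∧ p1 x = FreeGroup.of j := by
  obtain ⟨y, hy⟩ := h1 (FreeGroup.of j)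
  have hy' : y ∈ p0.ker ⊔ p1.ker := by rw [ht]; trivial
  obtain ⟨u, hu, v, hv, rfl⟩ := Subgroup.mem_sup_of_normal_right.1 hy'
  refine ⟨u, hu, ?_⟩
  rw [map_mul, MonoidHom.mem_ker.1 hv, mul_one] at hy
  exact hy

/-- Over the quotient by the third kernel. -/
theorem th_down {n : ℕ} (c : Fin n → Fin 3)
    (f : Fin 3 → FreeGroup (Fin n ⊕ Fin n) →* FreeGroup (Fin n)) (hf : TR.IsTrisection c f)
    (hs : ∀ i, i ≠ 2 → (f i).ker = (TR.std c i).ker) :
    ∃ (E : List (Hd (FreeGroup (Fin n)))) (i j : ℕ), nn 2 E = ⊥ ∧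
      E.map Prod.fst = (List.replicate ((List.ofFn c).count 0) 0 ++
        List.replicate ((List.ofFn c).count 1) 1) ++ List.replicate n 2 ∧
      FQ.Orb ((tup c (f 2) ++ tv 0 (n - (List.ofFn c).count 2)) ++ tv i j) (E ++ tv i j) := by
  obtain ⟨p0, p1, s0, s1, k0, k1, ht, hinf⟩ := th_ends c f hf
  have hp : Function.Surjective (f 2) := (hf.1 2).1
  choose y hy0 hy1 using th_let p0 p1 s1 ht
  choose z hz1 hz0 using th_let p1 p0 s0 (by rw [sup_comm]; exact ht)
  set A := imQd (Uc c) (f 2) hp with hA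
  have e0 : (f 0).ker = (Uc c).N0 := (hs 0 (by decide)).trans (ker_std c 0)
  have e1 : (f 1).ker = (Uc c).N1 := (hs 1 (by decide)).trans (ker_std c 1)
  have hA0 : A.N0 = p0.ker := by
    rw [k0, e0]
    rfl
  have hA1 : A.N1 = p1.ker := by
    rw [k1, e1]
    rfl
  have hAM : A.M = p0.ker ⊓ p1.ker := by
    rw [← hinf, e0, e1]
    rfl
  have hty : TyL A (tup c (f 2)) := by
    have h := (mor_imQd (Uc c) (f 2) hp).tyL (ty_id c)
    rw [mp_tup, MonoidHom.comp_id] at h
    exact h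
  have hfull : Full A (tup c (f 2)) := full_tup c (f 2) A hty hp rfl rfl rfl
  have hcl : cl A (tup c (f 2)) = 1 := by
    refine lemmaE p0 p1 s0 s1 ht A hA0 hA1 hAM ?_
    rw [d_cl hty, w_tup]
    exact (hf.1 2).2
  set E := thE p0 p1 y z (Finset.univ : Finset {h // c h = 0}).toList
    (Finset.univ : Finset {h // c h = 1}).toList (Finset.univ : Finset (Fin n)).toList with hE
  have hEf : Full A E := thE_full p0 p1 y z hy0 hy1 hz1 hz0 _ _ _
    (fun j => Finset.mem_toList.2 (Finset.mem_univ j))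
    (fun j => Finset.mem_toList.2 (Finset.mem_univ j))
    (fun j => Finset.mem_toList.2 (Finset.mem_univ j)) A hA0 hA1 hAM
  have hEcl : cl A E = 1 := by
    refine lemmaE p0 p1 s0 s1 ht A hA0 hA1 hAM ?_
    rw [d_cl hEf.ty]
    exact thE_w p0 p1 y z _ _ _
  have hlen : ∀ e : Fin 3, (Finset.univ : Finset {h // c h = e}).toList.length =
      (List.ofFn c).count e := by
    intro e
    rw [Finset.length_toList, Finset.card_univ, b6_count, Nat.card_eq_fintype_card]
  have hfst : E.map Prod.fst = (List.replicate ((List.ofFn c).count 0) 0 ++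
        List.replicate ((List.ofFn c).count 1) 1) ++ List.replicate n 2 := by
    rw [hE, thE_fst, hlen 0, hlen 1, Finset.length_toList, Finset.card_univ, Fintype.card_fin]
  have hn2 : (List.ofFn c).count 2 ≤ n := by
    have h := List.count_le_length (a := (2 : Fin 3)) (l := List.ofFn c)
    rwa [List.length_ofFn] at h
  have hU : (tup c (f 2)).map Prod.fst = List.ofFn c := a4_fst_tup c _
  have hcm : cm (tup c (f 2) ++ tv 0 (n - (List.ofFn c).count 2)) = cm E := by
    rw [g6_cm_app, b6_cm, b6_cm E, b6_cm (tv _ _), hU, hfst]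
    unfold tv
    simp [List.map_replicate, List.count_replicate, List.count_append]
  have hc2 : c2 (tup c (f 2) ++ tv 0 (n - (List.ofFn c).count 2)) = c2 E := by
    rw [g6_c2_app, b6_c2, b6_c2 E, b6_c2 (tv _ _), hU, hfst]
    unfold tv
    simp [List.map_replicate, List.count_replicate, List.count_append]
    omega
  obtain ⟨i, j, hij⟩ := orb_stable A
    ((full_tv 0 (n - (List.ofFn c).count 2)).2 hfull) hEf
    (by rw [cl_append, b6_tv, b6_cl_tt, hcl, hEcl, mul_one]) hcm hc2
  exact ⟨E, i, j, thE_nn p0 p1 y z _ _ _, hfst, hij⟩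

/-- The tuple `T` of the kernel `(f 2).ker`, with one of the types 0, 1 frozen. -/
theorem exists_that {n : ℕ} (c : Fin n → Fin 3)
    (f : Fin 3 → FreeGroup (Fin n ⊕ Fin n) →* FreeGroup (Fin n)) (hf : TR.IsTrisection c f)
    (hs : ∀ i, i ≠ 2 → (f i).ker = (TR.std c i).ker) (e₀ : Fin 3) (he : e₀ ≠ 2) :
    ∃ (T : List (Hd (FreeGroup (Fin n ⊕ Fin n)))) (l : List (Fin 3)),
      FQ.Orb (tup c (MonoidHom.id _) ++ tt l) T ∧ nn 2 T = (f 2).ker ∧ l.count e₀ = 0 ∧
      ∀ e, (T.map Prod.fst).count e = (List.ofFn c).count e + l.count e := by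
  obtain ⟨E, i, j, hE, hfst, hij⟩ := th_down c f hf hs
  have hp : Function.Surjective (f 2) := (hf.1 2).1
  obtain ⟨e₁, he1, he01⟩ : ∃ e₁ : Fin 3, e₁ ≠ 2 ∧ e₁ ≠ e₀ := by
    by_cases h : e₀ = 0
    · exact ⟨1, by decide, by rw [h]; decide⟩
    · exact ⟨0, by decide, Ne.symm h⟩
  set m := n - (List.ofFn c).count 2 with hm
  have hn2 : (List.ofFn c).count 2 ≤ n := by
    have h := List.count_le_length (a := (2 : Fin 3)) (l := List.ofFn c)
    rwa [List.length_ofFn] at h
  set lR : List (Fin 3) := List.replicate i e₁ ++ List.replicate j 2 with hlR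
  have b12 : (e₁ == 2) = false := by simpa using he1
  -- the equivalence over the quotient
  have h1 : FQ.Orb (mp (f 2) (tup c (MonoidHom.id _) ++ tt (List.replicate m 2 ++ lR)))
      (E ++ tt lR) := by
    rw [c1_mp_app, c6_mp_tt, mp_tup, MonoidHom.comp_id]
    have s1 : FQ.Orb (tv i j : List (Hd (FreeGroup (Fin n)))) (tt lR) := by
      rw [b6_tv]
      refine tt_orb _ _ ?_ ?_
      · simp [hlR]
      · simp [hlR, List.count_append, List.count_replicate, b12]
    have s2 : (tt (List.replicate m 2 ++ lR) : List (Hd (FreeGroup (Fin n)))) =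
        tv 0 m ++ tt lR := by
      rw [b6_tt_app, b6_tv]
      rfl
    rw [s2, ← List.append_assoc]
    exact orb_trans (orb_app2 (orb_refl _) (orb_symm s1))
      (orb_trans hij (orb_app2 (orb_refl _) s1))
  obtain ⟨T0, hT0, hO⟩ := orb_lift (f 2) h1
  have hent : ent T0 = ⊤ := by
    rw [← orb_ent hO]
    exact g4_ent_top _ _ (b6_full_id c).he
  have hnn : nn 2 T0 ≤ (f 2).ker := by
    rw [← Subgroup.map_eq_bot_iff, ← nn_mp (f 2) hp, hT0, nn_tt, hE]
  obtain ⟨S, hSf, hS⟩ := ker_fng (f 2) hp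
  set ks := hSf.toFinset.toList with hks
  have hmem : ∀ k, k ∈ ks ↔ k ∈ S := fun k => by
    rw [hks, Finset.mem_toList, Set.Finite.mem_toFinset]
  have hfst0 : T0.map Prod.fst = E.map Prod.fst ++ lR := by
    rw [← a4_fst_mp (f 2), hT0, List.map_append, c6_fst_tt]
  refine ⟨T0 ++ ks.map fun k => (2, 1, k), (List.replicate m 2 ++ lR) ++
    List.replicate ks.length 2, ?_, ?_, ?_, fun e => ?_⟩
  · rw [b6_tt_app, ← List.append_assoc]
    exact orb_trans (orb_app2 hO (orb_refl _)) (th_load ks T0 hent)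
  · refine le_antisymm ?_ ?_
    · rw [nn_le_iff]
      intro h hh
      rcases List.mem_append.1 hh with h2 | h2
      · exact (nn_le_iff 2 T0 (f 2).ker).1 hnn h h2
      · obtain ⟨k, hk, rfl⟩ := List.mem_map.1 h2
        refine ⟨fun _ => ?_, fun h3 => absurd rfl h3⟩
        rw [← hS]
        exact Subgroup.subset_normalClosure ((hmem k).1 hk)
    · rw [← hS]
      refine Subgroup.normalClosure_mono fun k hk => ?_
      exact ⟨(2, 1, k), List.mem_append_right _ (List.mem_map.2 ⟨k, (hmem k).2 hk, rfl⟩),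
        Or.inl ⟨rfl, rfl⟩⟩
  · have b02 : ((2 : Fin 3) == e₀) = false := by simpa using Ne.symm he
    have b01 : (e₁ == e₀) = false := by simpa using he01
    simp [hlR, List.count_append, List.count_replicate, b02, b01]
  · have h2 : (ks.map fun k => ((2, 1, k) : Hd (FreeGroup (Fin n ⊕ Fin n)))).map Prod.fst =
        List.replicate ks.length 2 := by
      rw [List.map_map]
      exact List.map_const
    rw [List.map_append, h2, hfst0, hfst]
    simp only [List.count_append, List.count_replicate]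
    fin_cases e <;> simp <;> omega

end Pool.Agent.UNI
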